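import Mathlib
import Pool.Agent.Helper93.ML.Step
import Pool.Agent.Helper99.ML.DehnHyp
import Pool.Agent.Helper61.ML.Codes
import Pool.Agent.Helper61.ML.Trans
import Pool.Agent.Helper41.ML.Junction
import Pool.Agent.Helper47.ML.Lines
import Pool.Agent.Helper17.ML.Match
import Pool.Agent.Helper44.ML.Ov
import Pool.Agent.Helper44.ML.Rig
import Pool.Agent.Helper8.ML.ELine
import Pool.Agent.Helper50.ML.M6Dehn
import Pool.Agent.Helper54.ML.Bottle
import Pool.Agent.Helper37.ML.Base
import Pool.Agent.Helper69.ML.Sequence
import Pool.Agent.Helper57.ML.Final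

/-!
# MP_021201_al, Q1: a Morse limited group all of whose asymptotic cones have cut-points

The negated form of Q1: there are a finitely generated group `G` and a finite generating set `S`
such that the Cayley graph of `(G, S)` is Morse limited although every asymptotic cone of it has a
cut-point.  The group is a limit of hyperbolic groups (graded small cancellation).
-/

namespace Pool.Agent.Results.MP_021201_al.MorseLimitedWithCutPoints

open Pool.Agent.Helper93.ML Pool.Agent.Helper93.ML.Fin

/-- the step of the construction -/
theorem stepThm : StmtStep :=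
  step Pool.Agent.Helper61.MLCodes.stmtCodes Pool.Agent.Helper99.ML.dehnHyp
    Pool.Agent.Helper41.ML.m5_junction Pool.Agent.Helper47.ML.stmtM5Lines
    (Pool.Agent.Helper44.ML.m5_ov Pool.Agent.Helper17.ML.m5Match)
    (Pool.Agent.Helper61.MLTrans.stmtM5Trans Pool.Agent.Helper17.ML.m5Match)
    (Pool.Agent.Helper8.ML.eline Pool.Agent.Helper17.ML.m5Match)
    Pool.Agent.Helper50.ML.stmtM6Dehn Pool.Agent.Helper44.ML.m6_rig
    Pool.Agent.Helper54.MLBottle.stmtM6Bottle

/-- There are a group `G` and a finite generating set `S` such that for every metric model `X` of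
the Cayley graph of `(G, S)` (in particular for its geometric realisation), `X` is Morse limited
and every asymptotic cone of `X` exists, is connected and has a cut-point. -/
theorem result :
    ∃ (G : Type) (_ : Group G) (S : Finset G), Subgroup.closure (S : Set G) = ⊤ ∧
      (∃ (X : Type) (_ : MetricSpace X) (ι : G → X), IsCayley (S : Set G) X ι) ∧
      ∀ (X : Type) [MetricSpace X] (ι : G → X), IsCayley (S : Set G) X ι →
        MorseLimited X ∧ AllConesCut X :=
  Pool.Agent.Helper57.ML.finalCone
    (Pool.Agent.Helper69.MLSeq.stmtSequence stepThm Pool.Agent.Helper37.ML.stmtBase)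

end Pool.Agent.Results.MP_021201_al.MorseLimitedWithCutPoints
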